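import Pool.Agent.H208Q.G

/-!
MP_b525bf_ag: resolution of the quotients of varieties of characteristic `p` by finite groups with a
normal `p`-subgroup (of arbitrary order) whose leading forms along a weighted centre are linearly
independent outside the vertex.
-/

set_option autoImplicit false

open AlgebraicGeometry CategoryTheory Pool.Agent.H920R2 Pool.Agent.H519R3.RS Pool.Agent.H208Q

universe u

namespace Pool.Agent.Results.MP_b525bf_ag.IndependentForms

/-- The structure morphism of the spectrum of a subalgebra. -/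
noncomputable def str {k B : Type u} [Field k] [CommRing B] [Algebra k B] (C : Subalgebra k B) :
    Spec (CommRingCat.of C) ⟶ Spec (CommRingCat.of k) :=
  Spec.map (CommRingCat.ofHom (algebraMap k C))

/-- Let `B` be a domain over a field `k` of characteristic `p` and `F` a decreasing multiplicative
filtration of `B` by ideals, with `F 0 = B` and `F 1 ≠ 0`, such that the weighted blowup of `F` is
smooth (`Good`; then `B` may be singular), for instance `B` smooth and `F` a regular weighted
centre. Let a finite group `G` act on `B`, preserving `F`, and let `P` be a normal `p`-subgroup of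
`G` such that `G / P` is abelian of order prime to `p` and `k` contains enough roots of unity for
`G / P`. Let `1 = H 0 < H 1 < ... < H r = P` be a chain of subgroups such that `H (i + 1)` is
generated by `H i` and an element `s i` which normalizes `H i`, with `(s i) ^ p` in `H i` (such
chains exist in every `p`-group `P`). Suppose that

* `s i - 1` raises the weights by some `l i > 0`;
* the fixed points of the elements `g ≠ 1` of `P` lie in the centre;
* the leading forms of `s 0 - 1, ..., s (r - 1) - 1`, which are vector fields on the normal cone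
  of the centre, are linearly independent at every point outside the vertex: every `a` in `F d`,
  `d > 0`, has a power `a ^ N` in the ideal generated by `F (N * d + 1)` and the multiples of the
  determinants of the elements `s i (c j) - c j` (`detI`).

Then the quotient of `Spec B` by `G` is a variety which has a resolution of singularities. -/
theorem result (p : ℕ) [Fact p.Prime] (k : Type u) [Field k] [CharP k p] (B : Type u)
    [CommRing B] [IsDomain B] [Algebra k B] (F : ℕ → Ideal B) (hF : IsFilt F) (hne : F 1 ≠ ⊥)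
    (hB : Good k hF ∨ (Algebra.Smooth k B ∧ RegularWeightedCentre k F))
    (G : Type) [Group G] [Finite G] (Θ : G →* (B ≃ₐ[k] B))
    (hst : ∀ g d, ∀ x ∈ F d, Θ g x ∈ F d) (P : Subgroup G) [P.Normal]
    (hab : ∀ g h : G, g * h * g⁻¹ * h⁻¹ ∈ P) (hQ : ¬ p ∣ P.index)
    [HasEnoughRootsOfUnity k (Monoid.exponent (G ⧸ P))]
    (r : ℕ) (H : ℕ → Subgroup P) (s : ℕ → P) (l : ℕ → ℕ) (hH0 : H 0 = ⊥) (hHr : H r = ⊤)
    (hH : ∀ i < r, H (i + 1) = H i ⊔ Subgroup.zpowers (s i))
    (hnorm : ∀ i < r, ∀ h, h ∈ H i ↔ s i * h * (s i)⁻¹ ∈ H i)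
    (hpow : ∀ i < r, s i ^ p ∈ H i) (hnot : ∀ i < r, s i ∉ H i)
    (hl : ∀ i < r, 0 < l i) (hdiv : ∀ i < r, ∀ d, ∀ a ∈ F d, Θ (s i) a - a ∈ F (d + l i))
    (hfix : ∀ g : P, g ≠ 1 → ∀ Q : Ideal B, Q.IsPrime → (∀ a, Θ g a - a ∈ Q) → F 1 ≤ Q)
    (hlead : ∀ d, 1 ≤ d → ∀ a ∈ F d, ∃ N : ℕ,
      a ^ N ∈ detI (fun (i : Fin r) b => Θ (s i) b - b) F (fun i => l i) (N * d))
    (C : Subalgebra k B) (hC : ∀ b, b ∈ C ↔ ∀ g, Θ g b = b) :
    IsVariety (str C) ∧
    ∃ (Y : Scheme.{u}) (π : Y ⟶ Spec (CommRingCat.of C)),
      AlgebraicGeometry.IsIntegral Y ∧ AlgebraicGeometry.IsProper π ∧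
      AlgebraicGeometry.Smooth (π ≫ str C) ∧
      ∃ U : (Spec (CommRingCat.of C)).Opens,
        Dense (U : Set (Spec (CommRingCat.of C))) ∧ IsIso (π ∣_ U) := by
  have hp : p.Prime := Fact.out
  have hpk : (p : k) = 0 := CharP.cast_eq_zero k p
  have hQ' : (P.index : k) ≠ 0 := fun h => hQ ((CharP.cast_eq_zero_iff k p _).1 h)
  have hG' : Good k hF := by
    rcases hB with h | ⟨h1, h2⟩
    · exact h
    · exact good_of_centre hF h2
  exact resolution_pgroup Θ hF hp hpk P hab hQ' H s l hH0 hHr hH hnorm hpow hnot hl hdiv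
    hfix hlead hG' hne hst C hC

end Pool.Agent.Results.MP_b525bf_ag.IndependentForms
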