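import Pool.Agent.Helper819.TR.Ext
import Pool.Agent.W558.WD.Plane

/-!
MP_b525bf_ag: resolution of the quotients of `S' × 𝔸^m`, where `S'` is an affine surface with an
action of a finite group `G`, by the finite group generated by `G` and a finite `G`-stable group of
translations along vectors of regular functions on `S'`, in characteristic `p`.
-/

set_option autoImplicit false

open AlgebraicGeometry CategoryTheory MvPolynomial Pool.Agent.W558

universe u v

namespace Pool.Agent.Results.MP_b525bf_ag.TranslationExtensions

variable {B : Type u} [CommRing B] {m : ℕ}

/-- The translation `f (x) ↦ f (x + v)` of the polynomial ring `B[x 0, ..., x (m - 1)]`. -/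
noncomputable def translate (v : Fin m → B) :
    MvPolynomial (Fin m) B →ₐ[B] MvPolynomial (Fin m) B :=
  aeval fun i => X i + C (v i)

variable (k : Type u) [Field k] [Algebra k B] (G : Type v) [Group G] [MulSemiringAction G B]
  [SMulCommClass G k B]

/-- The polynomials `f` in `B[x 0, ..., x (m - 1)]` which are invariant under the group `G` (which
acts on the coefficients) and under the translations by the elements of `Λ`. -/
noncomputable def invariants (Λ : AddSubgroup (Fin m → B)) :
    Subalgebra k (MvPolynomial (Fin m) B) where
  carrier := {f | (∀ g : G, MvPolynomial.map (MulSemiringAction.toRingHom G B g) f = f) ∧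
    ∀ v ∈ Λ, translate v f = f}
  mul_mem' := by
    intro f g hf hg
    refine ⟨fun a => ?_, fun v hv => ?_⟩
    · rw [map_mul, hf.1, hg.1]
    · rw [map_mul, hf.2 v hv, hg.2 v hv]
  add_mem' := by
    intro f g hf hg
    refine ⟨fun a => ?_, fun v hv => ?_⟩
    · rw [map_add, hf.1, hg.1]
    · rw [map_add, hf.2 v hv, hg.2 v hv]
  algebraMap_mem' := by
    intro a
    refine ⟨fun g => ?_, fun v _ => ?_⟩
    · change MvPolynomial.map _ (C (algebraMap k B a)) = C (algebraMap k B a)
      rw [MvPolynomial.map_C]
      congr 1
      exact smul_algebraMap g a
    · exact (translate v).commutes (algebraMap k B a)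

/-- The quotient of `Spec B × 𝔸^m` by the group generated by `G` and the translations by the
elements of `Λ`. -/
noncomputable def quot (Λ : AddSubgroup (Fin m → B)) : Scheme.{u} :=
  Spec (CommRingCat.of (invariants k G Λ))

/-- The structure morphism of the quotient. -/
noncomputable def quotStr (Λ : AddSubgroup (Fin m → B)) :
    quot k G Λ ⟶ Spec (CommRingCat.of k) :=
  Spec.map (CommRingCat.ofHom (algebraMap k (invariants k G Λ)))

/-- Let `k` be a perfect field of characteristic `p`, `B` a domain of finite type over `k` and `G`
a finite group acting on `B` over `k`. Let `E` be the field of fractions of the ring of invariants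
of `B`, and suppose that `E` has transcendence degree `2` and is the function field of a smooth
projective surface (which holds in particular if `E` is generated by two elements), or that any
finite family of nonzero elements of `E` has its zeros and poles in a simple normal crossings
divisor on some smooth projective variety with function field `E` (`HasLogModels`). Let `Λ` be a
finite subgroup of `B ^ m` which is stable under `G`. Then the quotient of `Spec B × 𝔸^m` by the
finite group generated by `G` and by the translations `(b, x) ↦ (b, x + v (b))`, `v ∈ Λ`, is a
variety and has a resolution of singularities. -/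
theorem result (p : ℕ) [Fact p.Prime] (k : Type u) [Field k] [PerfectField k] [CharP k p]
    (B : Type u) [CommRing B] [IsDomain B] [Algebra k B] [Algebra.FiniteType k B]
    (G : Type v) [Group G] [Finite G] [MulSemiringAction G B] [SMulCommClass G k B]
    (hE : (Algebra.trdeg k (FractionRing (FixedPoints.subalgebra k B G)) = 2 ∧
        ((∃ u : Fin 2 → FractionRing (FixedPoints.subalgebra k B G),
          IntermediateField.adjoin k (Set.range u) = ⊤) ∨
        HasModel k (FractionRing (FixedPoints.subalgebra k B G)))) ∨
      HasLogModels k (FractionRing (FixedPoints.subalgebra k B G)))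
    (m : ℕ) (Λ : AddSubgroup (Fin m → B)) [Finite Λ] (hΛ : ∀ g : G, ∀ v ∈ Λ, g • v ∈ Λ) :
    IsResolvableVariety (quotStr k G Λ) := by
  have hE' : (Algebra.trdeg k (FractionRing (FixedPoints.subalgebra k B G)) = 2 ∧
      HasModel k (FractionRing (FixedPoints.subalgebra k B G))) ∨
      HasLogModels k (FractionRing (FixedPoints.subalgebra k B G)) := by
    rcases hE with ⟨h2, ⟨w, hw⟩ | h⟩ | h
    · exact Or.inl ⟨h2, hasModel_plane h2 (fun j => (ind_of_top h2 w hw).ne_zero j) hw⟩
    · exact Or.inl ⟨h2, h⟩
    · exact Or.inr h
  have hfa : FaithfulSMul (FixedPoints.subalgebra k B G) (FractionRing B) := by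
    rw [faithfulSMul_iff_algebraMap_injective]
    exact (IsFractionRing.injective B (FractionRing B)).comp Subtype.val_injective
  let : Algebra (FractionRing (FixedPoints.subalgebra k B G)) (FractionRing B) :=
    FractionRing.liftAlgebra _ _
  let : MulSemiringAction G (FractionRing B) := IsFractionRing.mulSemiringAction G B _
  have : SMulDistribClass G B (FractionRing B) := inferInstance
  have : CharP (FractionRing B) p := charP_of_injective_algebraMap
    (algebraMap k (FractionRing B)).injective p
  have : Algebra.IsInvariant (FixedPoints.subalgebra k B G) B G :=
    ⟨fun b hb => ⟨⟨b, hb⟩, rfl⟩⟩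
  exact Pool.Agent.Helper819.TR.ext_core (FixedPoints.subalgebra k B G)
    (K := FractionRing (FixedPoints.subalgebra k B G)) (K' := FractionRing B) G p
    (Pool.Agent.Helper819.TR.hasMon_field hE') m Λ hΛ

end Pool.Agent.Results.MP_b525bf_ag.TranslationExtensions
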