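import Pool.Agent.H208P.Z

/-!
MP_b525bf_ag: resolution of the quotients of smooth affine varieties of characteristic `p` by finite
groups with a normal subgroup of order `p` acting locally, up to equivariant étale maps, like a
product of curves, linear representations and actions with a weighted centre.
-/

set_option autoImplicit false

open AlgebraicGeometry CategoryTheory Pool.Agent.H920R2 Pool.Agent.H208P

universe u

namespace Pool.Agent.Results.MP_b525bf_ag.WeightedActions

/-- The structure morphism of the spectrum of a subalgebra. -/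
noncomputable def str {k B : Type u} [Field k] [CommRing B] [Algebra k B] (C : Subalgebra k B) :
    Spec (CommRingCat.of C) ⟶ Spec (CommRingCat.of k) :=
  Spec.map (CommRingCat.ofHom (algebraMap k C))

/-- Let `p` be a prime, `k` a perfect field of characteristic `p`, `B` a domain which is smooth
over `k`, and `G` a finite group acting on `B` by `Θ`. Let `P` be a normal subgroup of `G` whose
order divides `p`, such that `G / P` is abelian of order prime to `p` and `k` contains the roots of
unity of order the exponent of `G / P` (automatic if `k` is algebraically closed). Assume that the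
elements of `P` act on `B` by automorphisms of the class `Weighted`. Then the quotient of `Spec B`
by `G` is a variety which has a resolution of singularities. Moreover each element of `P` acts
trivially or has a centre of positive weight on `B`, and this centre is stable under `G`. -/
theorem result (p : ℕ) [Fact p.Prime] (k : Type u) [Field k] [CharP k p] [PerfectField k]
    (B : Type u) [CommRing B] [IsDomain B] [Algebra k B] [Algebra.Smooth k B]
    (G : Type) [Group G] [Finite G] (Θ : G →* (B ≃ₐ[k] B)) (P : Subgroup G) [P.Normal]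
    (hP : Nat.card P ∣ p) (hab : ∀ g h : G, g * h * g⁻¹ * h⁻¹ ∈ P) (hQ : ¬ p ∣ P.index)
    [HasEnoughRootsOfUnity k (Monoid.exponent (G ⧸ P))]
    (hW : ∀ g ∈ P, Weighted p k B (Θ g))
    (C : Subalgebra k B) (hC : ∀ b, b ∈ C ↔ ∀ g, Θ g b = b) :
    (∀ g ∈ P, (∀ b, Θ g b = b) ∨ ∃ (l : ℕ) (F : ℕ → Ideal B), 0 < l ∧
      Centred k (fun b => Θ g b - b) l F ∧ ∀ (h : G) (d : ℕ), ∀ x ∈ F d, Θ h x ∈ F d) ∧
    IsVariety (str C) ∧
    ∃ (Y : Scheme.{u}) (π : Y ⟶ Spec (CommRingCat.of C)),
      AlgebraicGeometry.IsIntegral Y ∧ AlgebraicGeometry.IsProper π ∧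
      AlgebraicGeometry.Smooth (π ≫ str C) ∧
      ∃ U : (Spec (CommRingCat.of C)).Opens,
        Dense (U : Set (Spec (CommRingCat.of C))) ∧ IsIso (π ∣_ U) := by
  have hp : p.Prime := Fact.out
  have hpk : (p : k) = 0 := CharP.cast_eq_zero k p
  have hQ' : (P.index : k) ≠ 0 := fun h => hQ ((CharP.cast_eq_zero_iff k p _).1 h)
  have hc : ∀ g ∈ P, ∃ l, 0 < l ∧ HasCentre k (fun b => Θ g b - b) l :=
    fun g hg => (hW g hg).hasCentre hp hpk
  refine ⟨?_, resolution_group hp hpk Θ P hP hab hQ' hc C hC⟩
  intro g hg
  by_cases h0 : ∀ b, Θ g b = b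
  · exact Or.inl h0
  · right
    push Not at h0
    obtain ⟨b, hb⟩ := h0
    obtain ⟨l, hl, hcen⟩ := hc g hg
    obtain ⟨F, hF⟩ := hcen.centred ⟨b, sub_ne_zero.2 hb⟩
    refine ⟨l, F, hl, hF, fun h d => ?_⟩
    have hcard : Nat.card P = p := by
      rcases (Nat.dvd_prime hp).1 hP with h1 | h1
      · exfalso
        have h2 : Subsingleton P := (Nat.card_eq_one_iff_unique.1 h1).1
        have h3 : g = 1 := congrArg Subtype.val (Subsingleton.elim (⟨g, hg⟩ : P) 1)
        rw [h3, map_one] at hb
        exact hb rfl
      · exact h1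
    have hg1 : (⟨g, hg⟩ : P) ≠ 1 := by
      intro h3
      have h4 : g = 1 := congrArg Subtype.val h3
      rw [h4, map_one] at hb
      exact hb rfl
    refine group_stable Θ P hg (fun h' hh' => ?_) hl hF.regular
      ⟨hF.raises, hF.zeros, hF.leading⟩ h d
    obtain ⟨n, hn⟩ := mem_powers_of_prime_card hcard hg1 (g' := ⟨h', hh'⟩)
    exact ⟨n, congrArg Subtype.val hn.symm⟩

end Pool.Agent.Results.MP_b525bf_ag.WeightedActions
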